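import Pool.Agent.Y517.NT.Fam

/-!
# Project NT (helper517): the analytic linear equations of tangent null vectors (helper154)
-/

set_option autoImplicit false

open Set Filter Topology

noncomputable section

namespace Pool.Agent.Y154.NT

section

variable {E F G H : Type*} [NormedAddCommGroup E] [NormedSpace ℝ E] [NormedAddCommGroup F]
  [NormedSpace ℝ F] [NormedAddCommGroup G] [NormedSpace ℝ G] [NormedAddCommGroup H]
  [NormedSpace ℝ H]

theorem an_app {V : Set H} {f : H → E →L[ℝ] F} {g : H → E} (hf : AnalyticOnNhd ℝ f V)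
    (hg : AnalyticOnNhd ℝ g V) : AnalyticOnNhd ℝ (fun y => f y (g y)) V := fun y hy =>
  AnalyticAt.comp (g := fun p : (E →L[ℝ] F) × E => p.1 p.2) (f := fun y => (f y, g y))
    ((ContinuousLinearMap.id ℝ (E →L[ℝ] F)).analyticAt_bilinear (f y, g y))
    ((hf y hy).prod (hg y hy))

theorem an_comp {V : Set H} {f : H → F →L[ℝ] G} {g : H → E →L[ℝ] F}
    (hf : AnalyticOnNhd ℝ f V) (hg : AnalyticOnNhd ℝ g V) :
    AnalyticOnNhd ℝ (fun y => (f y).comp (g y)) V := fun y hy =>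
  AnalyticAt.comp (g := fun p : (F →L[ℝ] G) × (E →L[ℝ] F) => p.1.comp p.2)
    (f := fun y => (f y, g y))
    ((ContinuousLinearMap.compL ℝ E F G).analyticAt_bilinear (f y, g y))
    ((hf y hy).prod (hg y hy))

theorem an_clm {V : Set H} (L : E →L[ℝ] F) {g : H → E} (hg : AnalyticOnNhd ℝ g V) :
    AnalyticOnNhd ℝ (fun y => L (g y)) V := L.comp_analyticOnNhd hg

/-- currying -/
def cu : (E [⋀^Fin 2]→L[ℝ] ℝ) →L[ℝ] (E →L[ℝ] E →L[ℝ] ℝ) :=
  (ContinuousLinearMap.compL ℝ E (ContinuousMultilinearMap ℝ (fun _ : Fin 1 => E) ℝ)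
    (E →L[ℝ] ℝ) ((continuousMultilinearCurryFin1 ℝ E ℝ).toContinuousLinearEquiv :
      ContinuousMultilinearMap ℝ (fun _ : Fin 1 => E) ℝ →L[ℝ] (E →L[ℝ] ℝ))).comp
  (((continuousMultilinearCurryLeftEquiv ℝ (fun _ : Fin 2 => E) ℝ).toContinuousLinearEquiv :
      ContinuousMultilinearMap ℝ (fun _ : Fin 2 => E) ℝ →L[ℝ]
        (E →L[ℝ] ContinuousMultilinearMap ℝ (fun _ : Fin 1 => E) ℝ)).comp
    (ContinuousAlternatingMap.toContinuousMultilinearMapCLM ℝ))

theorem cu_apply (s : E [⋀^Fin 2]→L[ℝ] ℝ) (u w : E) : cu s u w = s ![u, w] := by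
  show s (Fin.cons u (Fin.snoc 0 w)) = s ![u, w]
  congr 1
  funext i
  fin_cases i <;> rfl

theorem an_cu {V : Set H} {s : H → E [⋀^Fin 2]→L[ℝ] ℝ} (hs : AnalyticOnNhd ℝ s V) :
    AnalyticOnNhd ℝ (fun y => cu (s y)) V :=
  an_clm (E := E [⋀^Fin 2]→L[ℝ] ℝ) (F := E →L[ℝ] E →L[ℝ] ℝ) cu hs

theorem an_flip {V : Set H} {f : H → E →L[ℝ] E →L[ℝ] ℝ} (hf : AnalyticOnNhd ℝ f V) :
    AnalyticOnNhd ℝ (fun y => (f y).flip) V :=
  an_clm (E := E →L[ℝ] E →L[ℝ] ℝ) (F := E →L[ℝ] E →L[ℝ] ℝ)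
    ((ContinuousLinearMap.flipₗᵢ ℝ E E ℝ).toContinuousLinearEquiv :
      (E →L[ℝ] E →L[ℝ] ℝ) →L[ℝ] (E →L[ℝ] E →L[ℝ] ℝ)) hf

end

theorem sq_aux {b q : ℝ} (hq : 0 ≤ q) (h : ∀ t : ℝ, 0 ≤ t * b + t ^ 2 * q) : b = 0 := by
  have h1 := h (-b / (q + 1))
  have hq1 : 0 < q + 1 := by linarith
  have h2 : -b / (q + 1) * b + (-b / (q + 1)) ^ 2 * q = -(b ^ 2 / (q + 1) ^ 2) := by
    field_simp
    ring
  rw [h2] at h1
  have h3 : 0 ≤ b ^ 2 / (q + 1) ^ 2 := by positivity
  have h4 : b ^ 2 / (q + 1) ^ 2 = 0 := by linarith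
  rw [div_eq_zero_iff] at h4
  rcases h4 with h4 | h4
  · exact pow_eq_zero_iff (two_ne_zero) |>.1 h4
  · exact absurd h4 (by positivity)

theorem t_FAM : Pool.Agent.Y517.NT.S_FAM := by
  classical
  intro d r V s Jh g hs hJ hg hpos
  let E := EuclideanSpace ℝ (Fin d)
  let bs := EuclideanSpace.basisFun (Fin d) ℝ
  let R : Fin d ⊕ (Fin r ⊕ Fin r) → E → E →L[ℝ] ℝ := fun i y => match i with
    | Sum.inl k => (cu (s y)).flip (Jh y (bs k)) + (cu (s y) (bs k)).comp (Jh y)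
    | Sum.inr (Sum.inl i) => fderiv ℝ (g i) y
    | Sum.inr (Sum.inr i) => (fderiv ℝ (g i) y).comp (Jh y)
  have hc : AnalyticOnNhd ℝ (fun y => cu (s y)) V := an_cu hs
  have hR : ∀ i, AnalyticOnNhd ℝ (R i) V := by
    rintro (k | i | i)
    · refine AnalyticOnNhd.add ?_ ?_
      · have h1 : AnalyticOnNhd ℝ (fun y => (cu (s y)).flip) V := an_flip hc
        exact an_app h1 (an_app hJ analyticOnNhd_const)
      · exact an_comp (an_app hc analyticOnNhd_const) hJ
    · exact (hg i).fderiv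
    · exact an_comp (hg i).fderiv hJ
  let e := (Fintype.equivFin (Fin d ⊕ (Fin r ⊕ Fin r))).symm
  let A : E → E →L[ℝ] (Fin (Fintype.card (Fin d ⊕ (Fin r ⊕ Fin r))) → ℝ) := fun y =>
    ∑ n, (ContinuousLinearMap.smulRightL ℝ E
      (Fin (Fintype.card (Fin d ⊕ (Fin r ⊕ Fin r))) → ℝ)).flip (Pi.single n 1) (R (e n) y)
  have hA : ∀ y u n, A y u n = R (e n) y u := by
    intro y u n
    show (∑ m, (ContinuousLinearMap.smulRightL ℝ E
      (Fin (Fintype.card (Fin d ⊕ (Fin r ⊕ Fin r))) → ℝ)).flip (Pi.single m 1) (R (e m) y)) u n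
        = _
    rw [ContinuousLinearMap.sum_apply, Finset.sum_apply, Finset.sum_eq_single n]
    · show R (e n) y u * (Pi.single n 1 : Fin _ → ℝ) n = R (e n) y u
      rw [Pi.single_eq_same, mul_one]
    · intro m _ hm
      show R (e m) y u * (Pi.single m 1 : Fin _ → ℝ) n = 0
      rw [Pi.single_eq_of_ne (Ne.symm hm), mul_zero]
    · intro h
      exact absurd (Finset.mem_univ n) h
  refine ⟨_, A, ?_, fun y hy u => ?_⟩
  · exact Finset.analyticOnNhd_fun_sum _ fun n _ => an_clm _ (hR (e n))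
  · have h1 : A y u = 0 ↔ ∀ i, R i y u = 0 := by
      constructor
      · intro h i
        have h2 := hA y u (e.symm i)
        rw [h, Equiv.apply_symm_apply] at h2
        exact h2.symm
      · intro h
        funext n
        rw [hA, h]
        rfl
    rw [h1]
    have hB : (∀ k, R (Sum.inl k) y u = 0) ↔ s y ![u, Jh y u] = 0 := by
      have h2 : ∀ k, R (Sum.inl k) y u = cu (s y) u (Jh y (bs k)) + cu (s y) (bs k) (Jh y u) :=
        fun k => rfl
      simp only [h2]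
      constructor
      · intro h
        have h3 : ((cu (s y) u).comp (Jh y) + (cu (s y)).flip (Jh y u) : E →L[ℝ] ℝ).toLinearMap =
            0 := bs.toBasis.ext fun k => by
          rw [OrthonormalBasis.coe_toBasis]
          exact h k
        have h4 : cu (s y) u (Jh y u) + cu (s y) u (Jh y u) = 0 := LinearMap.congr_fun h3 u
        rw [← cu_apply]
        linarith
      · intro h k
        rw [← cu_apply] at h
        refine sq_aux (q := cu (s y) (bs k) (Jh y (bs k))) ?_ fun t => ?_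
        · rw [cu_apply]
          exact hpos y hy _
        · have h5 := hpos y hy (u + t • bs k)
          rw [← cu_apply] at h5
          simp only [map_add, map_smul, ContinuousLinearMap.add_apply,
            ContinuousLinearMap.smul_apply, smul_eq_mul, h] at h5
          linarith
    rw [← hB]
    constructor
    · intro h
      exact ⟨fun k => h (Sum.inl k), fun i => ⟨h (Sum.inr (Sum.inl i)), h (Sum.inr (Sum.inr i))⟩⟩
    · rintro ⟨h2, h3⟩ (k | i | i)
      · exact h2 k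
      · exact (h3 i).1
      · exact (h3 i).2

end Pool.Agent.Y154.NT
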